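import Mathlib
import Pool.Agent.Y617.FT.Main

set_option autoImplicit false

/-!
# Every countable group that maps onto `C₆ * C_∞` is minimal subshift universal

The group `C₆ * C_∞` is a proper quotient of the free group of rank two and has no homomorphism onto
the free group of rank two. The definitions `MinimalSubshiftUniversal`, `UniversalOn`, `IsCBER`,
`IsMinimalSubshift`, `IsSubshift` and `shift` are those of `Pool.Agent.H139R3.MSDefs`.
-/

namespace Pool.Agent.Results.MP_27a2ed_lc.FactorOfFreeTwo

open Pool.Agent.H139R3.MS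

universe u

/-- The group `⟨s, t | s ^ 6⟩`, the free product of a cyclic group of order six and an infinite
cyclic group. -/
abbrev C6Z : Type := PresentedGroup ({FreeGroup.of 0 ^ 6} : Set (FreeGroup (Fin 2)))

/-- There is no homomorphism from `⟨s, t | s ^ 6⟩` onto the free group of rank two. -/
theorem not_onto : ¬ ∃ π : C6Z →* FreeGroup (Fin 2), Function.Surjective π := by
  rintro ⟨π, hπ⟩
  let φ : Fin 2 → (FreeGroup (Fin 2) →* Multiplicative ℤ) := fun i =>
    FreeGroup.lift (fun j => if j = i then Multiplicative.ofAdd 1 else 1)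
  let s : C6Z := PresentedGroup.of 0
  let t : C6Z := PresentedGroup.of 1
  have hs : s ^ 6 = 1 := by
    have h : (PresentedGroup.mk ({FreeGroup.of 0 ^ 6} : Set (FreeGroup (Fin 2))))
        (FreeGroup.of 0 ^ 6) = 1 := PresentedGroup.one_of_mem (by simp)
    rw [map_pow] at h
    exact h
  have h0 : ∀ i, φ i (π s) = 1 := by
    intro i
    have h1 : (φ i (π s)) ^ 6 = 1 := by rw [← map_pow, ← map_pow, hs, map_one, map_one]
    have h2 : (6 : ℕ) • Multiplicative.toAdd (φ i (π s)) = 0 := by
      rw [← toAdd_pow, h1, toAdd_one]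
    have h3 : Multiplicative.toAdd (φ i (π s)) = 0 := by
      rw [nsmul_eq_mul] at h2
      push_cast at h2
      omega
    exact Multiplicative.toAdd.injective h3
  have key : ∀ x : C6Z, ∃ k : ℤ, ∀ i, φ i (π x) = (φ i (π t)) ^ k := by
    intro x
    let H : Subgroup C6Z :=
      { carrier := {x | ∃ k : ℤ, ∀ i, φ i (π x) = (φ i (π t)) ^ k}
        one_mem' := ⟨0, fun i => by simp⟩
        mul_mem' := by
          rintro x y ⟨k, hk⟩ ⟨l, hl⟩
          exact ⟨k + l, fun i => by rw [map_mul, map_mul, hk, hl, zpow_add]⟩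
        inv_mem' := by
          rintro x ⟨k, hk⟩
          exact ⟨-k, fun i => by rw [map_inv, map_inv, hk, zpow_neg]⟩ }
    have hx : x ∈ H := PresentedGroup.generated_by _ H (by
      intro j
      fin_cases j
      · exact ⟨0, fun i => by rw [zpow_zero]; exact h0 i⟩
      · exact ⟨1, fun i => by rw [zpow_one]; rfl⟩) x
    exact hx
  obtain ⟨x0, hx0⟩ := hπ (FreeGroup.of 0)
  obtain ⟨x1, hx1⟩ := hπ (FreeGroup.of 1)
  obtain ⟨k, hk⟩ := key x0
  obtain ⟨l, hl⟩ := key x1
  have a0 := congrArg Multiplicative.toAdd (hk 0)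
  have a1 := congrArg Multiplicative.toAdd (hk 1)
  have b0 := congrArg Multiplicative.toAdd (hl 0)
  have b1 := congrArg Multiplicative.toAdd (hl 1)
  rw [hx0, toAdd_zpow] at a0 a1
  rw [hx1, toAdd_zpow] at b0 b1
  simp only [φ, FreeGroup.lift_apply_of, smul_eq_mul] at a0 a1 b0 b1
  simp only [if_true, toAdd_ofAdd, Fin.zero_eq_one_iff, Fin.one_eq_zero_iff,
    OfNat.ofNat_ne_one, if_false, toAdd_one] at a0 a1 b0 b1
  generalize Multiplicative.toAdd ((FreeGroup.lift
    (fun j : Fin 2 => if j = 0 then Multiplicative.ofAdd (1 : ℤ) else 1)) (π t)) = A at a0 b0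
  generalize Multiplicative.toAdd ((FreeGroup.lift
    (fun j : Fin 2 => if j = 1 then Multiplicative.ofAdd (1 : ℤ) else 1)) (π t)) = B at a1 b1
  have hk0 : k ≠ 0 := by rintro rfl; simp at a0
  have hB : B = 0 := by
    rcases mul_eq_zero.1 a1.symm with h | h
    · exact absurd h hk0
    · exact h
  rw [hB, mul_zero] at b1
  exact one_ne_zero b1

/-- Every countable group with a homomorphism onto `C₆ * C_∞ = ⟨s, t | s ^ 6⟩` is minimal subshift
universal. In particular this holds for `C₆ * C_∞` itself and for all free groups of rank at least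
two; `C₆ * C_∞` has no homomorphism onto the free group of rank two. -/
theorem result :
    (∀ (G : Type) [Group G] [Countable G] (π : G →* C6Z), Function.Surjective π →
      MinimalSubshiftUniversal.{u} G) ∧
    MinimalSubshiftUniversal.{u} C6Z ∧
    MinimalSubshiftUniversal.{u} (FreeGroup (Fin 2)) ∧
    (∀ (α : Type) [Countable α] [Nontrivial α], MinimalSubshiftUniversal.{u} (FreeGroup α)) ∧
    ¬ ∃ π : C6Z →* FreeGroup (Fin 2), Function.Surjective π := by
  have h1 : ∀ (G : Type) [Group G] (π : G →* C6Z), Function.Surjective π →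
      MinimalSubshiftUniversal.{u} G := fun G _ π hπ =>
    Pool.Agent.Y617.FT.universal_of_rich (Pool.Agent.Y617.FT.rich_T6.comp π hπ)
  refine ⟨fun G _ _ π hπ => h1 G π hπ, h1 C6Z (MonoidHom.id _) Function.surjective_id,
    h1 _ (PresentedGroup.mk _) (PresentedGroup.mk_surjective _), ?_, not_onto⟩
  intro α _ _
  classical
  obtain ⟨x, y, hxy⟩ := exists_pair_ne α
  refine h1 _ (FreeGroup.lift (fun z => if z = x then PresentedGroup.of 0 else
    PresentedGroup.of 1)) ?_
  intro g
  have hg : g ∈ (FreeGroup.lift (fun z : α => if z = x then (PresentedGroup.of 0 : C6Z) else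
      PresentedGroup.of 1)).range := PresentedGroup.generated_by _ _ (by
    intro j
    fin_cases j
    · exact ⟨FreeGroup.of x, by simp⟩
    · exact ⟨FreeGroup.of y, by simp [hxy.symm]⟩) g
  exact hg

end Pool.Agent.Results.MP_27a2ed_lc.FactorOfFreeTwo
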